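import Pool.Agent.Y163.MW.Gen
import Pool.Agent.Y67.MW.C1
import Pool.Agent.Y681.MW.C2
import Pool.Agent.Y246.MW.E

/-!
# Combinatorics of strings and the limit theorem
-/

set_option autoImplicit false

open Module TensorProduct Filter Topology

namespace Pool.Agent.Y163.MW

universe u v

section

variable {K : Type u} [Field K] {V : Type v} [AddCommGroup V] [Module K V]
  {gr : ℤ → Submodule K V} {N : Module.End K V}

/-- The indices of the basis vectors. -/
abbrev Strings.P (S : Strings gr N) : Type := Σ s : S.ι, Fin (S.len s + 1)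

lemma Strings.card_le (S : Strings gr N) :
    Nat.card {p : S.P // S.wt p = 0 ∨ S.wt p = 1} ≤
      Nat.card {p : S.P // S.ct p = 0 ∨ S.ct p = 1} := by
  classical
  let f : {p : S.P // S.wt p = 0 ∨ S.wt p = 1} → {p : S.P // S.ct p = 0 ∨ S.ct p = 1} :=
    fun p => ⟨⟨p.1.1, ⟨S.len p.1.1 / 2, by omega⟩⟩, by
      unfold Strings.ct
      simp only
      omega⟩
  apply Nat.card_le_card_of_injective f
  rintro ⟨⟨s, i⟩, hp⟩ ⟨⟨s', i'⟩, hp'⟩ h
  have h1 : s = s' := congrArg (fun p => p.1.1) h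
  subst h1
  have h2 : i = i' := by
    apply Fin.ext
    unfold Strings.wt at hp hp'
    simp only at hp hp'
    omega
  subst h2
  rfl

/-- The comparison of the pairs of basis vectors. -/
lemma Strings.pairs (S : Strings gr N)
    (h : Nat.card {x : S.P × S.P // S.wt x.1 + S.wt x.2 = 0 ∨ S.wt x.1 + S.wt x.2 = 1} =
      Nat.card {x : S.P × S.P // S.ct x.1 + S.ct x.2 = 0 ∨ S.ct x.1 + S.ct x.2 = 1}) (s : S.ι) :
    S.top s = S.len s := by
  classical
  let f : {x : S.P × S.P // S.wt x.1 + S.wt x.2 = 0 ∨ S.wt x.1 + S.wt x.2 = 1} →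
      {x : S.P × S.P // S.ct x.1 + S.ct x.2 = 0 ∨ S.ct x.1 + S.ct x.2 = 1} := fun x =>
    if hl : S.len x.1.1.1 ≤ S.len x.1.2.1 then
      ⟨(x.1.1, ⟨x.1.2.1, ⟨(S.len x.1.1.1 + S.len x.1.2.1) / 2 - (x.1.1.2 : ℕ), by omega⟩⟩), by
        have := x.1.1.2.2
        unfold Strings.ct
        simp only
        omega⟩
    else
      ⟨(⟨x.1.1.1, ⟨(S.len x.1.1.1 + S.len x.1.2.1) / 2 - (x.1.2.2 : ℕ), by omega⟩⟩, x.1.2), by
        have := x.1.2.2.2
        unfold Strings.ct
        simp only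
        omega⟩
  have hf : Function.Injective f := by
    rintro ⟨⟨⟨s, i⟩, ⟨t, j⟩⟩, hx⟩ ⟨⟨⟨s', i'⟩, ⟨t', j'⟩⟩, hx'⟩ hxy
    have hs : s = s' := by
      have := congrArg (fun p => p.1.1.1) hxy
      simp only [f] at this
      split_ifs at this <;> exact this
    have ht : t = t' := by
      have := congrArg (fun p => p.1.2.1) hxy
      simp only [f] at this
      split_ifs at this <;> exact this
    subst hs
    subst ht
    unfold Strings.wt at hx hx'
    simp only at hx hx'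
    by_cases hl : S.len s ≤ S.len t
    · have h1 : (i : ℕ) = i' := by
        have := congrArg (fun p => (p.1.1.2 : ℕ)) hxy
        simp only [f] at this
        rw [dif_pos hl, dif_pos hl] at this
        exact this
      have h2 : i = i' := Fin.ext h1
      have h3 : j = j' := Fin.ext (by omega)
      subst h2 h3
      rfl
    · have h1 : (j : ℕ) = j' := by
        have := congrArg (fun p => (p.1.2.2 : ℕ)) hxy
        simp only [f] at this
        rw [dif_neg hl, dif_neg hl] at this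
        exact this
      have h2 : j = j' := Fin.ext h1
      have h3 : i = i' := Fin.ext (by omega)
      subst h2 h3
      rfl
  have hb : Function.Bijective f := hf.bijective_of_nat_card_le h.ge
  have key : ∀ i : ℕ, i ≤ S.len s → ∃ j : ℕ, j ≤ S.len s ∧ S.top s = i + j := by
    intro i hi
    have hmem : S.ct ⟨s, ⟨i, by omega⟩⟩ + S.ct ⟨s, ⟨S.len s - i, by omega⟩⟩ = 0 ∨
        S.ct ⟨s, ⟨i, by omega⟩⟩ + S.ct ⟨s, ⟨S.len s - i, by omega⟩⟩ = 1 := by
      unfold Strings.ct
      simp only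
      omega
    obtain ⟨⟨⟨⟨s', i'⟩, ⟨t', j'⟩⟩, hx⟩, hfx⟩ :=
      hb.2 ⟨(⟨s, ⟨i, by omega⟩⟩, ⟨s, ⟨S.len s - i, by omega⟩⟩), hmem⟩
    have hs : s' = s := by
      have := congrArg (fun p => p.1.1.1) hfx
      simp only [f] at this
      split_ifs at this <;> exact this
    have ht : t' = s := by
      have := congrArg (fun p => p.1.2.1) hfx
      simp only [f] at this
      split_ifs at this <;> exact this
    subst hs
    subst ht
    have h1 : (i' : ℕ) = i := by
      have := congrArg (fun p => (p.1.1.2 : ℕ)) hfx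
      simp only [f] at this
      rw [dif_pos le_rfl] at this
      exact this
    unfold Strings.wt at hx
    simp only at hx
    exact ⟨j', by omega, by omega⟩
  obtain ⟨j, hj, hj'⟩ := key 0 (by omega)
  obtain ⟨k, hk, hk'⟩ := key (S.len s) le_rfl
  omega

end

/-- The local limit theorem. -/
theorem lim_count {I : Type} [Fintype I] (a : I → ℤ)
    (hsym : ∀ r : ℤ, Nat.card {i : I // a i = r} = Nat.card {i : I // a i = -r})
    (h2 : ∃ i j, a i = a j + 2) :
    Tendsto (fun n : ℕ => √(n : ℝ) *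
      ((Nat.card {g : Fin n → I // ∑ k, a (g k) = 0 ∨ ∑ k, a (g k) = 1} : ℝ) /
        (Fintype.card I : ℝ) ^ n)) atTop
    (𝓝 (√(2 * (Fintype.card I : ℝ) / (Real.pi * ∑ i, (a i : ℝ) ^ 2)))) := by
  refine (Pool.Agent.Y681.MW.C2.t I a h2).congr fun n => ?_
  congr 1
  rw [Pool.Agent.Y67.MW.C1.t I a hsym n, mul_div_assoc]
  congr 1
  rw [← intervalIntegral.integral_div]
  refine intervalIntegral.integral_congr fun θ _ => ?_
  beta_reduce
  rw [div_pow]
  ring

/-- The ratio of two such counting functions. -/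
theorem lim_ratio {I : Type} [Fintype I] (a c : I → ℤ)
    (ha : ∀ r : ℤ, Nat.card {i : I // a i = r} = Nat.card {i : I // a i = -r})
    (hc : ∀ r : ℤ, Nat.card {i : I // c i = r} = Nat.card {i : I // c i = -r})
    (ha2 : ∃ i j, a i = a j + 2) (hc2 : ∃ i j, c i = c j + 2) :
    Tendsto (fun n : ℕ =>
      (Nat.card {g : Fin (n + 1) → I // ∑ k, a (g k) = 0 ∨ ∑ k, a (g k) = 1} : ℝ) /
      (Nat.card {g : Fin (n + 1) → I // ∑ k, c (g k) = 0 ∨ ∑ k, c (g k) = 1} : ℝ)) atTop
    (𝓝 (√((∑ i, c i ^ 2 : ℤ) / (∑ i, a i ^ 2 : ℤ)))) := by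
  have hpos : ∀ d : I → ℤ, (∃ i j, d i = d j + 2) → (0 : ℝ) < ∑ i, (d i : ℝ) ^ 2 := by
    rintro d ⟨i, j, hij⟩
    have h1 : ∀ k, (0 : ℝ) ≤ (d k : ℝ) ^ 2 := fun k => sq_nonneg _
    rcases eq_or_ne (d i) 0 with h0 | h0
    · have h2 : d j ≠ 0 := by omega
      have h3 : (0 : ℝ) < (d j : ℝ) ^ 2 := by positivity
      exact lt_of_lt_of_le h3 (Finset.single_le_sum (fun k _ => h1 k) (Finset.mem_univ j))
    · have h3 : (0 : ℝ) < (d i : ℝ) ^ 2 := by positivity
      exact lt_of_lt_of_le h3 (Finset.single_le_sum (fun k _ => h1 k) (Finset.mem_univ i))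
  have hI : (0 : ℝ) < Fintype.card I := by
    obtain ⟨i, _⟩ := ha2
    exact_mod_cast Fintype.card_pos_iff.2 ⟨i⟩
  have hpa := hpos a ha2
  have hpc := hpos c hc2
  have h1 := (lim_count a ha ha2)
  have h2 := (lim_count c hc hc2)
  have hne : √(2 * (Fintype.card I : ℝ) / (Real.pi * ∑ i, (c i : ℝ) ^ 2)) ≠ 0 :=
    (Real.sqrt_pos.2 (div_pos (by positivity) (mul_pos Real.pi_pos hpc))).ne'
  have h3 := h1.div h2 hne
  have h4 := (tendsto_add_atTop_iff_nat 1).2 h3
  have hlim : √(2 * (Fintype.card I : ℝ) / (Real.pi * ∑ i, (a i : ℝ) ^ 2)) /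
      √(2 * (Fintype.card I : ℝ) / (Real.pi * ∑ i, (c i : ℝ) ^ 2)) =
      √((∑ i, c i ^ 2 : ℤ) / (∑ i, a i ^ 2 : ℤ)) := by
    rw [← Real.sqrt_div (div_nonneg (by positivity) (mul_pos Real.pi_pos hpa).le)]
    congr 1
    push_cast
    have := Real.pi_pos
    field_simp
  rw [hlim] at h4
  refine h4.congr fun n => ?_
  have hn : √((n + 1 : ℕ) : ℝ) ≠ 0 := (Real.sqrt_pos.2 (by positivity)).ne'
  have hb : (Fintype.card I : ℝ) ^ (n + 1) ≠ 0 := by positivity
  simp only [Pi.div_apply]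
  rw [mul_div_mul_left _ _ hn, div_div_div_cancel_right₀ hb]

end Pool.Agent.Y163.MW
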