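import Pool.Agent.Y163.MW.Pw
import Pool.Agent.Y163.MW.Comb
import Pool.Agent.Y68.MW.D
import Pool.Agent.Y141.MW.L

/-!
# The index law and the zero-one law
-/

set_option autoImplicit false

open Module TensorProduct Filter Topology

namespace Pool.Agent.Y163.MW

universe u v w

open Pool.Agent.Y143 Pool.Agent.Y136.UB Pool.Agent.H914

namespace Coh

variable {Ω : Type w} [Field Ω] [CharZero Ω] {R : Coh.{v, w} Ω} {q : ℕ}

section adp

variable {I : Type} [Fintype I] {a c : I → ℤ}

lemma Adp.inv_eq (hB1 : StB1.{w, v}) (H : R.Adp q a c) :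
    R.inv = Nat.card {i // a i = 0 ∨ a i = 1} := by
  obtain ⟨b, e, h, hs, -⟩ := H
  exact hB1 Ω R.V R.N I b a e h hs

lemma Adp.finrank_eq (H : R.Adp q a c) : finrank Ω R.V = Fintype.card I := by
  obtain ⟨b, -⟩ := H
  exact finrank_eq_card_basis b

lemma Adp.finrank_tot (hq : 1 < q) (hR : R.IsCoh q) (H : R.Adp q a c) (r : ℤ) :
    finrank Ω (R.tot q r) = Nat.card {i // c i = r} := by
  obtain ⟨b, e, h, -, hb⟩ := H
  exact finrank_gr (indep_tot hq hR) b c hb r

lemma Adp.pred_eq (hq : 1 < q) (hR : R.IsCoh q) (H : R.Adp q a c) :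
    R.pred q = Nat.card {i // c i = 0 ∨ c i = 1} := by
  classical
  rw [pred, H.finrank_tot hq hR, H.finrank_tot hq hR, Nat.card_eq_fintype_card,
    Nat.card_eq_fintype_card, Nat.card_eq_fintype_card, Fintype.card_subtype,
    Fintype.card_subtype, Fintype.card_subtype, Finset.filter_or, Finset.card_union_of_disjoint]
  rw [Finset.disjoint_filter]
  intro i _ h0 h1
  omega

lemma Adp.right_eq (hq : 1 < q) (hR : R.IsCoh q) (H : R.Adp q a c) {M : ℤ → Submodule Ω R.V}
    (hM : IsMonodromyFiltrationOn ⊤ R.N M) : R.right q M = Nat.card {i // c i - a i = 0} := by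
  classical
  obtain ⟨b, e, h, hs, hb⟩ := H
  have h1 := Pool.Agent.Y68.MW.stD Pool.Agent.Y141.MW.stL Ω R.V R.N I b a e h hs M hM
  have h2 : ∀ r s, finrank Ω (M r ⊓ R.tot q s : Submodule Ω R.V) =
      Nat.card {i // a i ≤ r ∧ c i = s} := by
    intro r s
    rw [h1 r, gr_eq_span (indep_tot hq hR) b c hb s, span_image_inf, finrank_span_image]
    rfl
  have h3 : ∀ s, (Nat.card {i // a i ≤ s ∧ c i = s} : ℤ) - Nat.card {i // a i ≤ s - 1 ∧ c i = s} =
      1 * (Nat.card {g : {i // c i - a i = 0} // c g.1 = s} : ℤ) := by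
    intro s
    have h4 : Nat.card {i // a i ≤ s ∧ c i = s} = Nat.card {i // a i ≤ s - 1 ∧ c i = s} +
        Nat.card {g : {i // c i - a i = 0} // c g.1 = s} := by
      have e1 : Nat.card {g : {i // c i - a i = 0} // c g.1 = s} =
          Nat.card {i // c i - a i = 0 ∧ c i = s} :=
        Nat.card_congr (Equiv.subtypeSubtypeEquivSubtypeInter (fun i => c i - a i = 0)
          (fun i => c i = s))
      rw [e1, Nat.card_eq_fintype_card, Nat.card_eq_fintype_card, Nat.card_eq_fintype_card,
        Fintype.card_subtype, Fintype.card_subtype, Fintype.card_subtype,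
        ← Finset.card_union_of_disjoint]
      · congr 1
        ext i
        simp only [Finset.mem_filter, Finset.mem_univ, true_and, Finset.mem_union]
        omega
      · rw [Finset.disjoint_filter]
        intro i _ h5 h6
        omega
    rw [h4]
    push_cast
    ring
  unfold right overlap
  rw [finsum_congr (fun s => by rw [h2, h2, h3 s]),
    finsum_card (fun g : {i // c i - a i = 0} => c g.1) (fun _ => 1), Finset.sum_const,
    Nat.card_eq_fintype_card]
  simp

end adp

/-- Symmetry of the weights on the whole cohomology. -/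
lemma finrank_tot_neg [IsAlgClosed Ω] (hq : 1 < q) (hR : R.IsCoh q) (c : ℤ) :
    finrank Ω (R.tot q c) = finrank Ω (R.tot q (-c)) := by
  have := hR.finite
  have key : ∀ c : ℤ, finrank Ω (R.tot q c) ≤ finrank Ω (R.tot q (-c)) := by
    intro c
    obtain ⟨B, hB⟩ := hR.dual
    have hB0 : ∀ x, (∀ y, B x y = 0) → x = 0 := hB.nondeg
    have hB1 : ∀ m m' x y, x ∈ R.gr m → y ∈ R.gr m' → m ≠ m' → B x y = 0 := hB.orth
    have hB2 : ∀ m x y, x ∈ R.gr m → y ∈ R.gr m → B (R.F x) (R.F y) = (q : Ω) ^ m * B x y :=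
      hB.frob
    let φ : R.tot q c →ₗ[Ω] Module.Dual Ω (R.tot q (-c)) :=
      { toFun := fun x => (B x).comp (R.tot q (-c)).subtype
        map_add' := fun x y => by ext z; simp
        map_smul' := fun a x => by ext z; simp }
    have hφ : Function.Injective φ := by
      rw [← LinearMap.ker_eq_bot, LinearMap.ker_eq_bot']
      intro x hx
      apply Subtype.ext
      apply hB0
      have h1 : ∀ m' c', ∀ y ∈ R.exc q m' c', B x y = 0 := by
        intro m' c' y hy
        by_cases hc : c' = -c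
        · subst hc
          exact DFunLike.congr_fun hx ⟨y, exc_le_tot m' _ hy⟩
        · have h2 : R.tot q c ≤ LinearMap.ker (B.flip y) := by
            refine iSup_le fun m => iSup₂_le fun α hα z hz => ?_
            rw [LinearMap.mem_ker, LinearMap.flip_apply]
            by_cases hm : m' = m
            · subst hm
              have h4 : R.exc q m' c' ≤ LinearMap.ker (B z) := by
                refine iSup₂_le fun β hβ t ht => ?_
                rw [LinearMap.mem_ker]
                refine gen_orth (hR.F_gr m') (hB2 m') ?_ (Submodule.mem_inf.1 hz).1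
                  (Submodule.mem_inf.1 ht).1 (Submodule.mem_inf.1 hz).2
                  (Submodule.mem_inf.1 ht).2
                intro h5
                have h6 := weil_mul (by omega) hα hβ
                rw [h5] at h6
                have h7 := weil_unique hq h6 (weil_natPow (by omega) m')
                omega
              exact LinearMap.mem_ker.1 (h4 hy)
            · exact hB1 m m' z y (Submodule.mem_inf.1 hz).1 (exc_le m' c' hy) (Ne.symm hm)
          exact LinearMap.mem_ker.1 (h2 x.2)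
      intro y
      have h8 : (⊤ : Submodule Ω R.V) ≤ LinearMap.ker (B x) := by
        rw [← hR.isInternal.submodule_iSup_eq_top]
        refine iSup_le fun m' => ?_
        rw [← iSup_exc hR m']
        exact iSup_le fun c' y hy => LinearMap.mem_ker.2 (h1 m' c' y hy)
      exact LinearMap.mem_ker.1 (h8 (Submodule.mem_top))
    have := LinearMap.finrank_le_finrank_of_injective hφ
    rwa [Subspace.dual_finrank_eq] at this
  apply le_antisymm (key c)
  have := key (-c)
  rwa [neg_neg] at this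

/-- The adapted basis given by strings. -/
lemma adp_strings (S : Strings (R.tot q) R.N) : R.Adp q S.ct S.wt := by
  obtain ⟨e, h, hs⟩ := Pool.Agent.Y664.MW.t_B2 Ω R.V (R.tot q) R.N S
  exact ⟨S.b, e, h, hs, S.mem'⟩

lemma exists_strings [IsAlgClosed Ω] (hq : 1 < q) (hR : R.IsCoh q) :
    Nonempty (Strings (R.tot q) R.N) := by
  have := hR.finite
  exact Pool.Agent.Y153.MW.stA Ω R.V (R.tot q) R.N (isInternal_tot hq hR) (N_tot hq hR)

lemma mw_iff [IsAlgClosed Ω] (hq : 1 < q) (hR : R.IsCoh q) (S : Strings (R.tot q) R.N) :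
    (∀ m, R.MWPure q m) ↔ ∀ s, S.top s = S.len s := by
  rw [← centred_tot_iff hq hR]
  exact Pool.Agent.Y614.MW.stF Ω R.V (R.tot q) R.N (isInternal_tot hq hR) S

lemma rankSum_top : R.totRankMoment =
    ∑ᶠ k : ℕ, 2 * (k : ℤ) * finrank Ω (LinearMap.range (R.N ^ k)) := by
  unfold totRankMoment rankSum
  refine finsum_congr fun k => ?_
  rw [Submodule.map_top]

/-- The second moment inequality for the whole cohomology. -/
theorem moment_tot [IsAlgClosed Ω] (hq : 1 < q) (hR : R.IsCoh q) :
    R.totRankMoment ≤ R.totWeightMoment q ∧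
      (R.totRankMoment = R.totWeightMoment q ↔ ∀ m, R.MWPure q m) := by
  have := hR.finite
  have h := moment (isInternal_tot hq hR) (N_tot hq hR)
  rw [centred_tot_iff hq hR, ← rankSum_top] at h
  exact h

/-- The kernel of `N` has at least the predicted dimension. -/
theorem pred_le_inv [IsAlgClosed Ω] (hB1 : StB1.{w, v}) (hq : 1 < q) (hR : R.IsCoh q) :
    R.pred q ≤ R.inv := by
  obtain ⟨S⟩ := exists_strings hq hR
  rw [(adp_strings S).inv_eq hB1, (adp_strings S).pred_eq hq hR]
  exact S.card_le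

lemma totRank_eq (S : Strings (R.tot q) R.N) : R.totRankMoment = ∑ p, S.ct p ^ 2 := by
  rw [rankSum_top]
  exact Pool.Agent.Y461.MW.h Ω R.V (R.tot q) R.N S

/-- If `N` is not zero, there is a string of positive length. -/
lemma exists_len (S : Strings (R.tot q) R.N) (hN : R.N ≠ 0) : ∃ s, 1 ≤ S.len s := by
  by_contra hcon
  push Not at hcon
  apply hN
  apply S.b.ext
  rintro ⟨s, i⟩
  have h0 : S.len s = 0 := by have := hcon s; omega
  have hi : i = Fin.last (S.len s) := by
    apply Fin.ext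
    have := i.2
    rw [Fin.val_last]
    omega
  rw [hi, S.last, LinearMap.zero_apply]

lemma totRank_pos [IsAlgClosed Ω] (hq : 1 < q) (hR : R.IsCoh q) (hN : R.N ≠ 0) :
    0 < R.totRankMoment := by
  obtain ⟨S⟩ := exists_strings hq hR
  obtain ⟨s, hs⟩ := exists_len S hN
  rw [totRank_eq S]
  have h1 : S.ct ⟨s, ⟨0, by omega⟩⟩ = S.len s := by
    unfold Strings.ct
    simp
  have h2 : 0 < S.ct ⟨s, ⟨0, by omega⟩⟩ ^ 2 := by
    rw [h1]
    have : (0 : ℤ) < S.len s := by exact_mod_cast hs
    positivity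
  exact lt_of_lt_of_le h2 (Finset.single_le_sum (f := fun p => S.ct p ^ 2)
    (fun p _ => sq_nonneg _) (Finset.mem_univ _))

lemma totWeight_eq (hq : 1 < q) (hR : R.IsCoh q) (S : Strings (R.tot q) R.N) :
    R.totWeightMoment q = ∑ p, S.wt p ^ 2 := S.weightMoment (indep_tot hq hR)

end Coh

section

variable {K : Type u} [Field K] {Ω : Type w} [Field Ω] [CharZero Ω] [IsAlgClosed Ω]
  {T : Theory.{u, v, w} K Ω} {q : ℕ}

open Coh

/-- The criterion on `X × X`. -/
theorem square_iff (hB1 : StB1.{w, v}) (hT : T.IsLocal q) (hq : 1 < q) (X : SmVar.{u} K) :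
    (T.H (X.prod X)).inv = (T.H (X.prod X)).pred q ↔ ∀ m, (T.H X).MWPure q m := by
  obtain ⟨S⟩ := exists_strings hq (hT.coh X)
  obtain ⟨κ, hκ⟩ := hT.kunneth X X
  have H := (adp_strings S).prod (adp_strings S) (by omega) hκ
  rw [mw_iff hq (hT.coh X) S, H.inv_eq hB1, H.pred_eq hq (hT.coh _)]
  constructor
  · intro h s
    exact S.pairs h.symm s
  · intro h
    have h1 : S.ct = S.wt := by
      funext p
      unfold Strings.ct Strings.wt
      rw [h p.1]
    rw [h1]

/-- The index law. -/
theorem index_law (hB1 : StB1.{w, v}) (hT : T.IsLocal q) (hq : 1 < q) (X : SmVar.{u} K)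
    (hN : (T.H X).N ≠ 0) :
    Tendsto (fun n : ℕ => ((T.H (pow X n)).inv : ℝ) / ((T.H (pow X n)).pred q : ℝ)) atTop
      (𝓝 (√(((T.H X).totWeightMoment q : ℝ) / ((T.H X).totRankMoment : ℝ)))) := by
  obtain ⟨S⟩ := exists_strings hq (hT.coh X)
  have H := adp_strings S
  rw [totRank_eq S, totWeight_eq hq (hT.coh X) S]
  obtain ⟨s, hs⟩ := exists_len S hN
  have ha2 : ∃ p p', S.ct p = S.ct p' + 2 := by
    refine ⟨⟨s, ⟨0, by omega⟩⟩, ⟨s, ⟨1, by omega⟩⟩, ?_⟩
    unfold Strings.ct
    simp
  have hc2 : ∃ p p', S.wt p = S.wt p' + 2 := by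
    refine ⟨⟨s, ⟨0, by omega⟩⟩, ⟨s, ⟨1, by omega⟩⟩, ?_⟩
    unfold Strings.wt
    simp
  have ha : ∀ r : ℤ, Nat.card {p // S.ct p = r} = Nat.card {p // S.ct p = -r} := by
    intro r
    let E : S.P ≃ S.P := Equiv.sigmaCongrRight fun s => Fin.revPerm
    refine Nat.card_congr (E.subtypeEquiv ?_)
    rintro ⟨s, i⟩
    have hE : S.ct (E ⟨s, i⟩) = -S.ct ⟨s, i⟩ := by
      show (S.len s : ℤ) - 2 * ((Fin.rev i : Fin (S.len s + 1)) : ℕ) =
        -((S.len s : ℤ) - 2 * (i : ℕ))
      rw [Fin.val_rev]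
      have := i.2
      omega
    rw [hE]
    omega
  have hc : ∀ r : ℤ, Nat.card {p // S.wt p = r} = Nat.card {p // S.wt p = -r} := by
    intro r
    rw [← H.finrank_tot hq (hT.coh X), ← H.finrank_tot hq (hT.coh X)]
    exact finrank_tot_neg hq (hT.coh X) r
  refine (lim_ratio S.ct S.wt ha hc ha2 hc2).congr fun n => ?_
  have Hn := adp_pow hT hq X H n
  rw [Hn.inv_eq hB1, Hn.pred_eq hq (hT.coh _)]

/-- The zero-one law. -/
theorem zero_one (hT : T.IsLocal q) (hq : 1 < q) (X : SmVar.{u} K)
    (M : ∀ n, ℤ → Submodule Ω (T.H (pow X n)).V)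
    (hM : ∀ n, IsMonodromyFiltrationOn ⊤ (T.H (pow X n)).N (M n)) :
    ((∀ m, (T.H X).MWPure q m) →
      ∀ n, (T.H (pow X n)).right q (M n) = finrank Ω (T.H (pow X n)).V) ∧
    (¬ (∀ m, (T.H X).MWPure q m) → Tendsto (fun n : ℕ =>
      ((T.H (pow X n)).right q (M n) : ℝ) / (finrank Ω (T.H (pow X n)).V : ℝ)) atTop (𝓝 0)) := by
  classical
  obtain ⟨S⟩ := exists_strings hq (hT.coh X)
  have H := adp_strings S
  rw [mw_iff hq (hT.coh X) S]
  have hd : ∀ n (g : Fin (n + 1) → S.P), ∑ k, S.wt (g k) - ∑ k, S.ct (g k) =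
      ∑ k, (S.wt (g k) - S.ct (g k)) := fun n g => (Finset.sum_sub_distrib _ _).symm
  have hcard : ∀ n, (T.H (pow X n)).right q (M n) =
      Nat.card {g : Fin (n + 1) → S.P // ∑ k, (S.wt (g k) - S.ct (g k)) = 0} := by
    intro n
    rw [(adp_pow hT hq X H n).right_eq hq (hT.coh _) (hM n)]
    simp only [hd]
  have hdim : ∀ n, finrank Ω (T.H (pow X n)).V = Fintype.card S.P ^ (n + 1) := by
    intro n
    rw [(adp_pow hT hq X H n).finrank_eq, Fintype.card_fun, Fintype.card_fin]
  constructor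
  · intro h n
    have h1 : ∀ p, S.wt p - S.ct p = 0 := by
      intro p
      unfold Strings.wt Strings.ct
      rw [h p.1]
      ring
    rw [hcard, hdim]
    have h2 : Nat.card {g : Fin (n + 1) → S.P // ∑ k, (S.wt (g k) - S.ct (g k)) = 0} =
        Nat.card (Fin (n + 1) → S.P) :=
      Nat.card_congr (Equiv.subtypeUnivEquiv (fun g => Finset.sum_eq_zero fun k _ => h1 (g k)))
    rw [h2, Nat.card_eq_fintype_card, Fintype.card_fun, Fintype.card_fin]
  · intro h
    push Not at h
    obtain ⟨s, hs⟩ := h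
    have h1 : ∃ p, (fun p => S.wt p - S.ct p) p ≠ 0 := by
      refine ⟨⟨s, ⟨0, by omega⟩⟩, ?_⟩
      unfold Strings.wt Strings.ct
      simp only
      omega
    refine (Pool.Agent.Y246.MW.stE S.P (fun p => S.wt p - S.ct p) h1).congr fun n => ?_
    rw [hcard, hdim]
    push_cast
    rfl

end

end Pool.Agent.Y163.MW
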