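import Pool.Agent.H914R2.Var
import Pool.Agent.Y143.MonDefs

/-!
# Cohomology of varieties over a local field: weights, monodromy and Künneth formula

`K` is a local field with residue field with `q` elements; the cohomology groups
`H^m(X_{\bar K}, ℚ_ℓ)` of the smooth proper varieties `X` over `K` have coefficients in the
algebraically closed field `Ω` (an algebraic closure of `ℚ_ℓ`), Tate twists are suppressed.
-/

set_option autoImplicit false

open Module AlgebraicGeometry TensorProduct

universe u v w

namespace Pool.Agent.Y163.MW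

open Pool.Agent.H914 Pool.Agent.Y143

section

variable {Ω : Type w} [Field Ω] {V V' V'' : Type v} [AddCommGroup V] [Module Ω V]
  [AddCommGroup V'] [Module Ω V'] [AddCommGroup V''] [Module Ω V'']

/-- The operator `T` respects the degrees. -/
def Respects (gr : ℕ → Submodule Ω V) (T : Module.End Ω V) : Prop := ∀ m, ∀ x ∈ gr m, T x ∈ gr m

/-- `N F = c F N`. -/
def Twisted (c : Ω) (F N : Module.End Ω V) : Prop := ∀ x, N (F x) = c • F (N x)

/-- All the eigenvalues of `F` are `q`-Weil numbers of integral weights. -/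
def HasWeights [CharZero Ω] (q : ℕ) (gr : ℕ → Submodule Ω V) (F : Module.End Ω V) : Prop :=
  ∀ (m : ℕ) (α : Ω) (x : V), x ∈ gr m → x ≠ 0 → F x = α • x → ∃ w : ℤ, IsWeilNumber q w α

/-- The value `B(x, y)` of a bilinear form. -/
def val (B : V →ₗ[Ω] V →ₗ[Ω] Ω) (x y : V) : Ω := B x y

/-- The form `B` is nondegenerate, the `gr m` are orthogonal to each other, and
`B(F x, F y) = q ^ m B(x, y)` on `gr m`. -/
structure IsDuality (q : ℕ) (gr : ℕ → Submodule Ω V) (F : Module.End Ω V)
    (B : V →ₗ[Ω] V →ₗ[Ω] Ω) : Prop where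
  nondeg : ∀ x, (∀ y, val B x y = 0) → x = 0
  orth : ∀ m m' x y, x ∈ gr m → y ∈ gr m' → m ≠ m' → val B x y = 0
  frob : ∀ m x y, x ∈ gr m → y ∈ gr m → val B (F x) (F y) = (q : Ω) ^ m * val B x y

/-- The element `κ (x ⊗ y)`. -/
def tm (κ : V ⊗[Ω] V' ≃ₗ[Ω] V'') (x : V) (y : V') : V'' := κ (x ⊗ₜ y)

/-- The map `κ` respects the degrees. -/
def KDegree (κ : V ⊗[Ω] V' ≃ₗ[Ω] V'') (gr : ℕ → Submodule Ω V) (gr' : ℕ → Submodule Ω V')
    (gr'' : ℕ → Submodule Ω V'') : Prop :=
  ∀ m n x y, x ∈ gr m → y ∈ gr' n → tm κ x y ∈ gr'' (m + n)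

/-- `T'' (x ⊗ y) = T x ⊗ T' y`. -/
def KMultiplicative (κ : V ⊗[Ω] V' ≃ₗ[Ω] V'') (T : Module.End Ω V) (T' : Module.End Ω V')
    (T'' : Module.End Ω V'') : Prop := ∀ x y, T'' (tm κ x y) = tm κ (T x) (T' y)

/-- `N'' (x ⊗ y) = N x ⊗ y + x ⊗ N' y`. -/
def KLeibniz (κ : V ⊗[Ω] V' ≃ₗ[Ω] V'') (N : Module.End Ω V) (N' : Module.End Ω V')
    (N'' : Module.End Ω V'') : Prop := ∀ x y, N'' (tm κ x y) = tm κ (N x) y + tm κ x (N' y)

/-- The sum `2 ∑ k * rank (N ^ k)`, where `N ^ k` is restricted to the subspace `S`. -/
noncomputable def rankSum (S : Submodule Ω V) (N : Module.End Ω V) : ℤ :=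
  ∑ᶠ k : ℕ, 2 * (k : ℤ) * finrank Ω (S.map (N ^ k))

/-- The sum of the `c ^ 2 * dim (W c)`. -/
noncomputable def squareSum (W : ℤ → Submodule Ω V) : ℤ := ∑ᶠ c : ℤ, c ^ 2 * finrank Ω (W c)

/-- The dimension of `M_s ∩ W_s` minus the dimension of `M_(s - 1) ∩ W_s`. -/
noncomputable def overlap (M W : ℤ → Submodule Ω V) (s : ℤ) : ℤ :=
  (finrank Ω (M s ⊓ W s : Submodule Ω V) : ℤ) - finrank Ω (M (s - 1) ⊓ W s : Submodule Ω V)

end

/-- The data given by the cohomology of a variety `X` over `K`: the space
`V = ⨁ H^m(X_{\bar K})`, its parts `gr m = H^m(X_{\bar K})`, the action `F` of an element of the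
Weil group of `K` which induces the geometric Frobenius, and the monodromy operator `N` (the
logarithm of the action of the inertia group). -/
structure Coh (Ω : Type w) [Field Ω] where
  /-- the cohomology -/
  V : Type v
  [addCommGroup : AddCommGroup V]
  [module : Module Ω V]
  /-- the cohomology in degree `m` -/
  gr : ℕ → Submodule Ω V
  /-- the geometric Frobenius -/
  F : Module.End Ω V
  /-- the monodromy operator -/
  N : Module.End Ω V

attribute [instance] Coh.addCommGroup Coh.module

namespace Coh

variable {Ω : Type w} [Field Ω] [CharZero Ω] (R : Coh.{v, w} Ω) (q : ℕ)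

/-- The part of `H^m` of excess `c`: the sum of the generalized eigenspaces of `F` for the `q`-Weil
numbers of weight `m + c`. -/
def exc (m : ℕ) (c : ℤ) : Submodule Ω R.V :=
  ⨆ (α : Ω) (_ : IsWeilNumber q (m + c) α), R.gr m ⊓ R.F.maxGenEigenspace α

/-- The part of the whole cohomology of excess `c`: the sum of the parts of weight `m + c` of the
`H^m`. -/
def tot (c : ℤ) : Submodule Ω R.V := ⨆ m, R.exc q m c

/-- `H^m` is mw pure of weight `m`: for all `s` the eigenvalues of `F` on the graded piece
`M_s / M_(s - 1)` of the monodromy filtration `M` of `H^m` are `q`-Weil numbers of weight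
`m + s`. -/
def MWPure (m : ℕ) : Prop :=
  ∃ M : ℤ → Submodule Ω R.V, IsMonodromyFiltrationOn (R.gr m) R.N M ∧
    ∀ (s : ℤ) (α : Ω) (x : R.V), x ∈ M s → x ∉ M (s - 1) → R.F x - α • x ∈ M (s - 1) →
      IsWeilNumber q (m + s) α

/-- The sum `2 ∑ k * rank (N ^ k)` for the powers of `N` on `H^m`. -/
noncomputable def rankMoment (m : ℕ) : ℤ := rankSum (R.gr m) R.N

/-- The sum of the squares `(w - m)^2` over the eigenvalues of `F` on `H^m`, `w` denoting the
weight. -/
noncomputable def weightMoment (m : ℕ) : ℤ := squareSum (R.exc q m)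

/-- The sum `2 ∑ k * rank (N ^ k)` for the powers of `N` on the whole cohomology. -/
noncomputable def totRankMoment : ℤ := rankSum ⊤ R.N

/-- The sum of the squares of the excesses of the eigenvalues of `F` on the whole cohomology. -/
noncomputable def totWeightMoment : ℤ := squareSum (R.tot q)

/-- The dimension of the kernel of `N` (of the space of inertia invariants, if inertia acts
unipotently). -/
noncomputable def inv : ℕ := finrank Ω (LinearMap.ker R.N)

/-- The dimension of the kernel of `N` predicted by the weights: the number of eigenvalues of `F` on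
the `H^m` of weight `m` or `m + 1`. -/
noncomputable def pred : ℕ := finrank Ω (R.tot q 0) + finrank Ω (R.tot q 1)

/-- The number of the eigenvalues of `F` on the graded pieces `M_s / M_(s - 1)` of a filtration `M`
which have the expected weight (excess `s`). -/
noncomputable def right (M : ℤ → Submodule Ω R.V) : ℤ := ∑ᶠ s : ℤ, overlap M (R.tot q) s

/-- The known properties: `F` and `N` respect the degrees and `N F = q F N`; the eigenvalues of `F`
are `q`-Weil numbers of integral weights; and (Poincare duality and the hard Lefschetz theorem)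
`H^m` is self-dual up to a Tate twist. -/
structure IsCoh : Prop where
  finite : Module.Finite Ω R.V
  isInternal : DirectSum.IsInternal R.gr
  F_gr : Respects R.gr R.F
  N_gr : Respects R.gr R.N
  N_F : Twisted (q : Ω) R.F R.N
  weil : HasWeights q R.gr R.F
  dual : ∃ B, IsDuality q R.gr R.F B

end Coh

/-- The Künneth formula: an isomorphism of the tensor product of `R` and `R'` with `R''` which
respects the degrees and the operators. -/
structure IsKunneth {Ω : Type w} [Field Ω] (R R' R'' : Coh.{v, w} Ω)
    (κ : R.V ⊗[Ω] R'.V ≃ₗ[Ω] R''.V) : Prop where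
  degree : KDegree κ R.gr R'.gr R''.gr
  frob : KMultiplicative κ R.F R'.F R''.F
  monodromy : KLeibniz κ R.N R'.N R''.N

/-- The data of the cohomology of all the smooth proper varieties over `K`. -/
structure Theory (K : Type u) [Field K] (Ω : Type w) [Field Ω] where
  /-- the cohomology of `X` -/
  H : SmVar.{u} K → Coh.{v, w} Ω

/-- The cohomology of the smooth proper varieties over a local field `K` with residue field with `q`
elements has the known properties. -/
structure Theory.IsLocal {K : Type u} [Field K] {Ω : Type w} [Field Ω] [CharZero Ω]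
    (T : Theory.{u, v, w} K Ω) (q : ℕ) : Prop where
  coh : ∀ X, (T.H X).IsCoh q
  kunneth : ∀ X Y, ∃ κ, IsKunneth (T.H X) (T.H Y) (T.H (X.prod Y)) κ

/-- The powers `X^(n + 1)`. -/
noncomputable def pow {K : Type u} [Field K] (X : SmVar.{u} K) : ℕ → SmVar.{u} K
  | 0 => X
  | n + 1 => X.prod (pow X n)

end Pool.Agent.Y163.MW
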