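import Pool.Agent.Y163.MW.Base

/-!
# Linear algebra: adapted bases
-/

set_option autoImplicit false

open Module TensorProduct

namespace Pool.Agent.Y163.MW

universe u v

section

variable {K : Type u} [Field K] {V : Type v} [AddCommGroup V] [Module K V]

/-- Sums over the fibres of a map of an independent family form an independent family. -/
lemma iSupIndep_fib {I J : Type*} {A : I → Submodule K V} (hA : iSupIndep A) (f : I → J) :
    iSupIndep (fun j => ⨆ (i : I) (_ : f i = j), A i) := by
  rw [iSupIndep_def]
  intro j
  have h := iSupIndep.disjoint_biSup_biSup hA (s := {i | f i = j}) (t := {i | f i ≠ j})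
    (Set.disjoint_left.2 fun i h1 h2 => h2 h1)
  refine h.mono le_rfl ?_
  refine iSup₂_le fun j' hj' => iSup₂_le fun i hi => ?_
  exact le_iSup₂_of_le i (show f i ≠ j by rw [hi]; exact hj') le_rfl

lemma iSup_fib {I J : Type*} (A : I → Submodule K V) (f : I → J) :
    (⨆ j, ⨆ (i : I) (_ : f i = j), A i) = ⨆ i, A i := by
  apply le_antisymm
  · exact iSup_le fun j => iSup₂_le fun i _ => le_iSup A i
  · exact iSup_le fun i => le_iSup_of_le (f i) (le_iSup₂_of_le i rfl le_rfl)

/-- The graded pieces in terms of an adapted basis. -/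
lemma gr_eq_span {J : Type*} {gr : J → Submodule K V} (hgr : iSupIndep gr) {I : Type*} [Finite I]
    (b : Basis I K V) (wt : I → J) (hb : ∀ i, b i ∈ gr (wt i)) (r : J) :
    gr r = Submodule.span K (b '' {i | wt i = r}) := by
  classical
  have := Fintype.ofFinite I
  apply le_antisymm
  · intro x hx
    have h1 : x = ∑ i ∈ Finset.univ.filter (fun i => wt i = r), b.repr x i • b i +
        ∑ i ∈ Finset.univ.filter (fun i => ¬ wt i = r), b.repr x i • b i := by
      rw [Finset.sum_filter_add_sum_filter_not]
      exact (b.sum_repr x).symm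
    set y := ∑ i ∈ Finset.univ.filter (fun i => wt i = r), b.repr x i • b i with hy
    set z := ∑ i ∈ Finset.univ.filter (fun i => ¬ wt i = r), b.repr x i • b i with hz
    have hyr : y ∈ gr r := by
      refine Submodule.sum_mem _ fun i hi => Submodule.smul_mem _ _ ?_
      rw [← (Finset.mem_filter.1 hi).2]
      exact hb i
    have hys : y ∈ Submodule.span K (b '' {i | wt i = r}) := by
      refine Submodule.sum_mem _ fun i hi => Submodule.smul_mem _ _ ?_
      exact Submodule.subset_span ⟨i, (Finset.mem_filter.1 hi).2, rfl⟩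
    have hzs : z ∈ ⨆ (j) (_ : j ≠ r), gr j := by
      refine Submodule.sum_mem _ fun i hi => Submodule.smul_mem _ _ ?_
      exact Submodule.mem_iSup_of_mem (wt i) (Submodule.mem_iSup_of_mem (Finset.mem_filter.1 hi).2
        (hb i))
    have hzr : z ∈ gr r := by
      have : z = x - y := by rw [h1]; abel
      rw [this]
      exact Submodule.sub_mem _ hx hyr
    have hz0 : z = 0 := by
      have := (iSupIndep_def.1 hgr r).le_bot ⟨hzr, hzs⟩
      simpa using this
    rw [h1, hz0, add_zero]
    exact hys
  · rw [Submodule.span_le]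
    rintro _ ⟨i, hi, rfl⟩
    have := hb i
    rw [show wt i = r from hi] at this
    exact this

lemma finrank_span_image {I : Type*} [Finite I] (b : Basis I K V) (T : Set I) :
    finrank K (Submodule.span K (b '' T)) = Nat.card T := by
  classical
  have := Fintype.ofFinite I
  have := Fintype.ofFinite T
  have h : b '' T = Set.range (⇑b ∘ (Subtype.val : T → I)) := by
    ext x
    simp
  rw [h, finrank_span_eq_card (b.linearIndependent.comp _ Subtype.val_injective),
    Nat.card_eq_fintype_card]

lemma finrank_gr {J : Type*} {gr : J → Submodule K V} (hgr : iSupIndep gr) {I : Type*} [Finite I]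
    (b : Basis I K V) (wt : I → J) (hb : ∀ i, b i ∈ gr (wt i)) (r : J) :
    finrank K (gr r) = Nat.card {i // wt i = r} := by
  rw [gr_eq_span hgr b wt hb r, finrank_span_image]
  rfl

lemma span_image_inf {I : Type*} (b : Basis I K V) (T T' : Set I) :
    Submodule.span K (b '' T) ⊓ Submodule.span K (b '' T') = Submodule.span K (b '' (T ∩ T')) := by
  ext x
  rw [Submodule.mem_inf, b.mem_span_image, b.mem_span_image, b.mem_span_image,
    Set.subset_inter_iff]

end

section

variable {K : Type u} [Field K] {V V' : Type v} [AddCommGroup V] [Module K V]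
  [AddCommGroup V'] [Module K V']

/-- Transport of `sl(2)` data. -/
lemma IsSl2.map {N : Module.End K V} {ι : Type} {b : Basis ι K V} {a : ι → ℤ}
    {e h : Module.End K V} (H : IsSl2 N b a e h) (κ : V ≃ₗ[K] V') {N' : Module.End K V'}
    (hN : ∀ x, N' (κ x) = κ (N x)) :
    IsSl2 N' (b.map κ) a (κ.conj e) (κ.conj h) := by
  have hN' : N' = κ.conj N := by
    ext x
    rw [LinearEquiv.conj_apply_apply, ← hN, κ.apply_symm_apply]
  have hm : ∀ f g : Module.End K V, κ.conj f * κ.conj g = κ.conj (f * g) := by
    intro f g
    ext x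
    simp [LinearEquiv.conj_apply_apply]
  constructor
  · intro i
    rw [LinearEquiv.conj_apply_apply, Basis.map_apply, κ.symm_apply_apply, H.wt, map_smul]
  · rw [hN', hm, hm, ← map_sub, H.eN]
  · rw [hN', hm, hm, ← map_sub, H.hN, map_smul]
  · rw [hm, hm, ← map_sub, H.he, map_smul]

end

end Pool.Agent.Y163.MW
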