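import Pool.Agent.Y143.WeilNum

/-!
# Products of Weil numbers; uniqueness of the weight
-/

set_option autoImplicit false

namespace Pool.Agent.Y163.MW

universe u

open Module Polynomial Pool.Agent.Y143

variable {Ω : Type u} [Field Ω] [CharZero Ω]

/-- The conjugates of a product are products of conjugates. -/
lemma exists_root_of_mul {α β : Ω} (hα : IsAlgebraic ℚ α) (hβ : IsAlgebraic ℚ β) {y : ℂ}
    (hy : aeval y (minpoly ℚ (α * β)) = 0) : ∃ z z' : ℂ, aeval z (minpoly ℚ α) = 0 ∧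
      aeval z' (minpoly ℚ β) = 0 ∧ z * z' = y := by
  let E := IntermediateField.adjoin ℚ {α, β}
  let a : E := ⟨α, IntermediateField.subset_adjoin ℚ _ (by simp)⟩
  let b : E := ⟨β, IntermediateField.subset_adjoin ℚ _ (by simp)⟩
  have halgE : Algebra.IsAlgebraic ℚ E := by
    apply IntermediateField.isAlgebraic_adjoin
    intro x hx
    rcases hx with rfl | hx
    · exact hα.isIntegral
    · rw [Set.mem_singleton_iff.1 hx]
      exact hβ.isIntegral
  have hmin : ∀ x : E, minpoly ℚ x = minpoly ℚ (x : Ω) := fun x =>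
    (minpoly.algebraMap_eq (B := E) (B' := Ω) (algebraMap E Ω).injective x).symm
  have hc : minpoly ℚ (a * b) = minpoly ℚ (α * β) := hmin (a * b)
  let F := IntermediateField.adjoin ℚ ({a * b} : Set E)
  have hint : IsIntegral ℚ (a * b) := (halgE.isAlgebraic (a * b)).isIntegral
  have hyroot : y ∈ (minpoly ℚ (a * b)).aroots ℂ := by
    rw [mem_aroots]
    exact ⟨minpoly.ne_zero hint, by rw [hc]; exact hy⟩
  let ψ : F →ₐ[ℚ] ℂ := (IntermediateField.algHomAdjoinIntegralEquiv ℚ hint).symm ⟨y, hyroot⟩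
  have hψ : ψ (IntermediateField.AdjoinSimple.gen ℚ (a * b)) = y :=
    IntermediateField.algHomAdjoinIntegralEquiv_symm_apply_gen ℚ hint ⟨y, hyroot⟩
  let _ : Algebra F ℂ := ψ.toRingHom.toAlgebra
  have hst : IsScalarTower ℚ F ℂ := IsScalarTower.of_algebraMap_eq (fun x => (ψ.commutes x).symm)
  have halgF : Algebra.IsAlgebraic F E := Algebra.IsAlgebraic.tower_top (K := ℚ) F
  let Φ : E →ₐ[F] ℂ := IsAlgClosed.lift
  have hroot : ∀ x : E, aeval (Φ x) (minpoly ℚ (x : Ω)) = 0 := by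
    intro x
    rw [← hmin]
    have h1 : aeval (Φ.restrictScalars ℚ x) (minpoly ℚ x) = 0 := by
      rw [aeval_algHom_apply, minpoly.aeval, map_zero]
    exact h1
  refine ⟨Φ a, Φ b, hroot a, hroot b, ?_⟩
  rw [← map_mul]
  have h1 : (a * b : E) = algebraMap F E (IntermediateField.AdjoinSimple.gen ℚ (a * b)) :=
    (IntermediateField.AdjoinSimple.algebraMap_gen ℚ (a * b)).symm
  rw [h1, AlgHom.commutes]
  exact hψ

/-- The product of two Weil numbers. -/
lemma weil_mul {q : ℕ} (hq : 0 < q) {w w' : ℤ} {α β : Ω} (h : IsWeilNumber q w α)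
    (h' : IsWeilNumber q w' β) : IsWeilNumber q (w + w') (α * β) := by
  refine ⟨h.1.mul h'.1, fun y hy => ?_⟩
  obtain ⟨z, z', hz, hz', rfl⟩ := exists_root_of_mul h.1 h'.1 hy
  rw [norm_mul, h.2 z hz, h'.2 z' hz', ← Real.rpow_add (by exact_mod_cast hq)]
  congr 1
  push_cast
  ring

/-- The weight of a Weil number is well defined. -/
lemma weil_unique {q : ℕ} (hq : 1 < q) {w w' : ℤ} {α : Ω} (h : IsWeilNumber q w α)
    (h' : IsWeilNumber q w' α) : w = w' := by
  have hd : (minpoly ℚ α).degree ≠ 0 :=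
    (minpoly.degree_pos h.1.isIntegral).ne'
  obtain ⟨z, hz⟩ := IsAlgClosed.exists_aeval_eq_zero ℂ (minpoly ℚ α) hd
  have h1 := h.2 z hz
  rw [h'.2 z hz] at h1
  have hq' : (1 : ℝ) < q := by exact_mod_cast hq
  have h2 := (Real.strictMono_rpow_of_base_gt_one hq').injective h1
  have h3 : (w : ℝ) = w' := by linarith
  exact_mod_cast h3

/-- `q ^ m` has weight `2 m`. -/
lemma weil_natPow {q : ℕ} (hq : 0 < q) (m : ℕ) : IsWeilNumber q (2 * (m : ℤ)) ((q : Ω) ^ m) := by
  have h := (IsWeilNumber.one (Ω := Ω) q).twist hq.ne' (m : ℤ)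
  rw [mul_one, zero_add, zpow_natCast] at h
  exact h

lemma weil_ne_zero {q : ℕ} (hq : 0 < q) {w : ℤ} {α : Ω} (h : IsWeilNumber q w α) : α ≠ 0 := by
  rintro rfl
  have h1 := h.2 0 (by simp [minpoly.zero])
  rw [norm_zero] at h1
  have h2 : (0 : ℝ) < (q : ℝ) ^ ((w : ℝ) / 2) := Real.rpow_pos_of_pos (by exact_mod_cast hq) _
  linarith

end Pool.Agent.Y163.MW
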