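import Pool.Agent.Y163.MW.Defs
import Pool.Agent.Y163.MW.Lin
import Pool.Agent.Y163.MW.WN
import Pool.Agent.Y136.UB.GenEig

/-!
# The decomposition of the cohomology by degree and weight
-/

set_option autoImplicit false

open Module TensorProduct

namespace Pool.Agent.Y163.MW

universe u v w

open Pool.Agent.Y143 Pool.Agent.Y136.UB

section

variable {Ω : Type w} [Field Ω] {V : Type v} [AddCommGroup V] [Module Ω V]

/-- Independence of the intersections of two families. -/
lemma iSupIndep_inf {I J : Type*} {A : I → Submodule Ω V} {B : J → Submodule Ω V}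
    (hA : iSupIndep A) (hB : iSupIndep B) : iSupIndep (fun p : I × J => A p.1 ⊓ B p.2) := by
  classical
  rw [iSupIndep_iff_finsetSum_eq_zero_imp_eq_zero] at *
  intro s v hv hsum p hp
  have h1 : ∀ i ∈ s.image Prod.fst, ∑ p ∈ s.filter (fun p => p.1 = i), v p = 0 := by
    apply hA
    · intro i _
      refine Submodule.sum_mem _ fun p hp => ?_
      have := (Submodule.mem_inf.1 (hv p (Finset.mem_filter.1 hp).1)).1
      rwa [(Finset.mem_filter.1 hp).2] at this
    · rw [← hsum]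
      exact Finset.sum_fiberwise_of_maps_to (fun p hp => Finset.mem_image_of_mem _ hp) _
  have h2 := h1 p.1 (Finset.mem_image_of_mem _ hp)
  have h3 : ∑ j ∈ (s.filter (fun p' => p'.1 = p.1)).image Prod.snd, v (p.1, j) = 0 := by
    rw [Finset.sum_image]
    · rw [← h2]
      refine Finset.sum_congr rfl fun p' hp' => ?_
      rw [← (Finset.mem_filter.1 hp').2]
    · intro x hx y hy hxy
      have hx1 := (Finset.mem_filter.1 hx).2
      have hy1 := (Finset.mem_filter.1 hy).2
      exact Prod.ext (hx1.trans hy1.symm) hxy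
  have h4 := hB _ (fun j => v (p.1, j)) ?_ h3 p.2
    (Finset.mem_image.2 ⟨p, Finset.mem_filter.2 ⟨hp, rfl⟩, rfl⟩)
  · exact h4
  · intro j hj
    obtain ⟨p', hp', rfl⟩ := Finset.mem_image.1 hj
    have h5 := (Finset.mem_filter.1 hp').2
    have h6 := (Submodule.mem_inf.1 (hv p' (Finset.mem_filter.1 hp').1)).2
    have h7 : (p.1, p'.2) = p' := Prod.ext h5.symm rfl
    simp only [h7]
    exact h6

/-- A generalized eigenvector yields an eigenvector in every stable subspace which contains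
it. -/
lemma exists_eigen_of_gen {F : Module.End Ω V} {S : Submodule Ω V} (hS : ∀ x ∈ S, F x ∈ S) {α : Ω}
    {x : V} (hxS : x ∈ S) (hx : x ∈ F.maxGenEigenspace α) (h0 : x ≠ 0) :
    ∃ y ∈ S, y ≠ 0 ∧ F y = α • y := by
  obtain ⟨k, hk⟩ := mem_gen.1 hx
  induction k generalizing x with
  | zero => exact absurd (by simpa using hk) h0
  | succ k ih =>
    by_cases h1 : (F - algebraMap Ω (Module.End Ω V) α) x = 0
    · refine ⟨x, hxS, h0, ?_⟩
      rw [LinearMap.sub_apply, Module.algebraMap_end_apply, sub_eq_zero] at h1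
      exact h1
    · have h2 : (F - algebraMap Ω (Module.End Ω V) α) x ∈ S := by
        rw [LinearMap.sub_apply, Module.algebraMap_end_apply]
        exact S.sub_mem (hS x hxS) (S.smul_mem _ hxS)
      have h3 : ((F - algebraMap Ω (Module.End Ω V) α) ^ k)
          ((F - algebraMap Ω (Module.End Ω V) α) x) = 0 := by
        rw [← Module.End.mul_apply, ← pow_succ]
        exact hk
      exact ih h2 (mem_gen.2 ⟨k, h3⟩) h1 h3

/-- Generalized eigenvectors for eigenvalues whose product is not `c` are orthogonal for a form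
with `B (F x) (F y) = c B x y`. -/
lemma gen_orth {F : Module.End Ω V} {S : Submodule Ω V} (hS : ∀ x ∈ S, F x ∈ S)
    {B : V →ₗ[Ω] V →ₗ[Ω] Ω} {c : Ω} (hB : ∀ x y, x ∈ S → y ∈ S → B (F x) (F y) = c * B x y)
    {α β : Ω} (hαβ : α * β ≠ c) {x y : V} (hxS : x ∈ S) (hyS : y ∈ S)
    (hx : x ∈ F.maxGenEigenspace α) (hy : y ∈ F.maxGenEigenspace β) : B x y = 0 := by
  obtain ⟨m, hm⟩ := mem_gen.1 hx
  obtain ⟨n, hn⟩ := mem_gen.1 hy
  have key : ∀ (t i j : ℕ), i + j ≤ t → ∀ x y, x ∈ S → y ∈ S →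
      ((F - algebraMap Ω (Module.End Ω V) α) ^ i) x = 0 →
      ((F - algebraMap Ω (Module.End Ω V) β) ^ j) y = 0 → B x y = 0 := by
    intro t
    induction t with
    | zero =>
      intro i j hij x y _ _ hx _
      have : i = 0 := by omega
      subst this
      have hx0 : x = 0 := by simpa using hx
      rw [hx0, map_zero, LinearMap.zero_apply]
    | succ t ih =>
      intro i j hij x y hxS hyS hx hy
      rcases Nat.eq_zero_or_pos i with hi | hi
      · subst hi
        have hx0 : x = 0 := by simpa using hx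
        rw [hx0, map_zero, LinearMap.zero_apply]
      rcases Nat.eq_zero_or_pos j with hj | hj
      · subst hj
        have hy0 : y = 0 := by simpa using hy
        rw [hy0, map_zero]
      obtain ⟨i, rfl⟩ : ∃ i', i = i' + 1 := ⟨i - 1, by omega⟩
      obtain ⟨j, rfl⟩ : ∃ j', j = j' + 1 := ⟨j - 1, by omega⟩
      have hx' : ((F - algebraMap Ω (Module.End Ω V) α) ^ i) (F x - α • x) = 0 := by
        rw [pow_succ, Module.End.mul_apply, LinearMap.sub_apply,
          Module.algebraMap_end_apply] at hx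
        exact hx
      have hy' : ((F - algebraMap Ω (Module.End Ω V) β) ^ j) (F y - β • y) = 0 := by
        rw [pow_succ, Module.End.mul_apply, LinearMap.sub_apply,
          Module.algebraMap_end_apply] at hy
        exact hy
      have hxS' : F x - α • x ∈ S := S.sub_mem (hS x hxS) (S.smul_mem _ hxS)
      have hyS' : F y - β • y ∈ S := S.sub_mem (hS y hyS) (S.smul_mem _ hyS)
      have h1 : B (F x - α • x) (F y - β • y) = 0 :=
        ih i j (by omega) _ _ hxS' hyS' hx' hy'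
      have h2 : B (F x - α • x) y = 0 := ih i (j + 1) (by omega) _ _ hxS' hyS hx' hy
      have h3 : B x (F y - β • y) = 0 := ih (i + 1) j (by omega) _ _ hxS hyS' hx hy'
      have h4 : (c - α * β) * B x y = 0 := by
        have e1 : (c - α * β) * B x y = B (F x - α • x) (F y - β • y) +
            β * B (F x - α • x) y + α * B x (F y - β • y) := by
          simp only [map_sub, map_smul, LinearMap.sub_apply, LinearMap.smul_apply, smul_eq_mul,
            hB x y hxS hyS]
          ring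
        rw [e1, h1, h2, h3]
        ring
      rcases mul_eq_zero.1 h4 with h5 | h5
      · exact absurd (sub_eq_zero.1 h5).symm hαβ
      · exact h5
  exact key (m + n) m n le_rfl x y hxS hyS hm hn

end

namespace Coh

variable {Ω : Type w} [Field Ω] [CharZero Ω] {R : Coh.{v, w} Ω} {q : ℕ}

/-- The weight of a Weil number. -/
noncomputable def wtf (q : ℕ) (α : Ω) : ℤ := by
  classical
  exact if h : ∃ w, IsWeilNumber q w α then h.choose else 0

lemma wtf_eq (hq : 1 < q) {w : ℤ} {α : Ω} (h : IsWeilNumber q w α) : wtf q α = w := by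
  have h' : ∃ w, IsWeilNumber q w α := ⟨w, h⟩
  unfold wtf
  rw [dif_pos h']
  exact weil_unique hq h'.choose_spec h

/-- The part of `H^m` for the generalized eigenvalue `α`. -/
def pc (R : Coh.{v, w} Ω) (p : ℕ × Ω) : Submodule Ω R.V := R.gr p.1 ⊓ R.F.maxGenEigenspace p.2

lemma indep_pc (hR : R.IsCoh q) : iSupIndep R.pc :=
  iSupIndep_inf hR.isInternal.submodule_iSupIndep (Module.End.independent_maxGenEigenspace R.F)

lemma gr_eq [IsAlgClosed Ω] (hR : R.IsCoh q) (m : ℕ) : R.gr m = ⨆ α, R.pc (m, α) := by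
  have := hR.finite
  exact Submodule.eq_iSup_inf_genEigenspace ⊤ (hR.F_gr m)
    (Module.End.iSup_maxGenEigenspace_eq_top R.F)

lemma exists_weil (hR : R.IsCoh q) {m : ℕ} {α : Ω} {x : R.V} (hx : x ∈ R.pc (m, α))
    (h0 : x ≠ 0) : ∃ w : ℤ, IsWeilNumber q w α := by
  obtain ⟨y, hy, hy0, hFy⟩ := exists_eigen_of_gen (hR.F_gr m) (Submodule.mem_inf.1 hx).1
    (Submodule.mem_inf.1 hx).2 h0
  exact hR.weil m α y hy hy0 hFy

lemma pc_eq_bot (hR : R.IsCoh q) {m : ℕ} {α : Ω} (h : ¬ ∃ w : ℤ, IsWeilNumber q w α) :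
    R.pc (m, α) = ⊥ := by
  rw [Submodule.eq_bot_iff]
  intro x hx
  by_contra h0
  exact h (exists_weil hR hx h0)

lemma exc_eq (hq : 1 < q) (hR : R.IsCoh q) (m : ℕ) (c : ℤ) :
    R.exc q m c = ⨆ (p : ℕ × Ω) (_ : (p.1, wtf q p.2 - p.1) = (m, c)), R.pc p := by
  apply le_antisymm
  · refine iSup₂_le fun α hα => ?_
    refine le_iSup₂_of_le (m, α) ?_ le_rfl
    rw [wtf_eq hq hα]
    simp
  · refine iSup₂_le fun p hp => ?_
    obtain ⟨m', α⟩ := p
    simp only [Prod.mk.injEq] at hp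
    obtain ⟨rfl, hc⟩ := hp
    by_cases h : ∃ w : ℤ, IsWeilNumber q w α
    · obtain ⟨w, hw⟩ := h
      rw [wtf_eq hq hw] at hc
      refine le_iSup₂_of_le α ?_ le_rfl
      rwa [show (m' : ℤ) + c = w by omega]
    · rw [pc_eq_bot hR h]
      exact bot_le

lemma indep_exc (hq : 1 < q) (hR : R.IsCoh q) :
    iSupIndep (fun p : ℕ × ℤ => R.exc q p.1 p.2) := by
  have h := iSupIndep_fib (indep_pc hR) (fun p : ℕ × Ω => (p.1, wtf q p.2 - (p.1 : ℤ)))
  have e : (fun p : ℕ × ℤ => R.exc q p.1 p.2) = fun j : ℕ × ℤ =>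
      ⨆ (p : ℕ × Ω) (_ : (p.1, wtf q p.2 - (p.1 : ℤ)) = j), R.pc p := by
    funext j
    exact exc_eq hq hR j.1 j.2
  rw [e]
  exact h

lemma indep_exc_deg (hq : 1 < q) (hR : R.IsCoh q) (m : ℕ) : iSupIndep (R.exc q m) :=
  (indep_exc hq hR).comp (f := fun c : ℤ => (m, c)) (fun c c' h => (Prod.mk.inj h).2)

lemma exc_le (m : ℕ) (c : ℤ) : R.exc q m c ≤ R.gr m := iSup₂_le fun _ _ => inf_le_left

lemma iSup_exc [IsAlgClosed Ω] (hR : R.IsCoh q) (m : ℕ) : ⨆ c, R.exc q m c = R.gr m := by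
  apply le_antisymm
  · exact iSup_le fun c => exc_le m c
  · rw [gr_eq hR m]
    refine iSup_le fun α => ?_
    by_cases h : ∃ w : ℤ, IsWeilNumber q w α
    · obtain ⟨w, hw⟩ := h
      refine le_iSup_of_le (w - m) (le_iSup₂_of_le α ?_ le_rfl)
      rwa [show (m : ℤ) + (w - m) = w by ring]
    · rw [pc_eq_bot hR h]
      exact bot_le

lemma tot_eq (c : ℤ) : R.tot q c = ⨆ (p : ℕ × ℤ) (_ : p.2 = c), R.exc q p.1 p.2 := by
  apply le_antisymm
  · refine iSup_le fun m => ?_
    exact le_iSup₂_of_le (m, c) rfl le_rfl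
  · refine iSup₂_le fun p hp => ?_
    subst hp
    exact le_iSup (fun m => R.exc q m p.2) p.1

lemma indep_tot (hq : 1 < q) (hR : R.IsCoh q) : iSupIndep (R.tot q) := by
  have h := iSupIndep_fib (indep_exc hq hR) (fun p : ℕ × ℤ => p.2)
  have e : R.tot q = fun j : ℤ => ⨆ (p : ℕ × ℤ) (_ : p.2 = j), R.exc q p.1 p.2 := by
    funext j
    exact tot_eq j
  rw [e]
  exact h

lemma exc_le_tot (m : ℕ) (c : ℤ) : R.exc q m c ≤ R.tot q c := le_iSup (fun m => R.exc q m c) m

lemma isInternal_tot [IsAlgClosed Ω] (hq : 1 < q) (hR : R.IsCoh q) :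
    DirectSum.IsInternal (R.tot q) := by
  apply DirectSum.isInternal_submodule_of_iSupIndep_of_iSup_eq_top (indep_tot hq hR)
  rw [eq_top_iff, ← hR.isInternal.submodule_iSup_eq_top]
  refine iSup_le fun m => ?_
  rw [← iSup_exc hR m]
  exact iSup_mono fun c => exc_le_tot m c

lemma F_exc (hR : R.IsCoh q) (m : ℕ) (c : ℤ) : ∀ x ∈ R.exc q m c, R.F x ∈ R.exc q m c := by
  intro x hx
  have h : R.exc q m c ≤ (R.exc q m c).comap R.F := by
    refine iSup₂_le fun α hα => ?_
    intro y hy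
    refine Submodule.mem_iSup_of_mem α (Submodule.mem_iSup_of_mem hα ?_)
    obtain ⟨h1, h2⟩ := Submodule.mem_inf.1 hy
    refine Submodule.mem_inf.2 ⟨hR.F_gr m y h1, ?_⟩
    exact gen_map R.F (fun _ => rfl) h2
  exact h hx

lemma N_exc (hq : 1 < q) (hR : R.IsCoh q) (m : ℕ) (c : ℤ) :
    ∀ x ∈ R.exc q m c, R.N x ∈ R.exc q m (c - 2) := by
  intro x hx
  have hq0 : (q : Ω) ≠ 0 := Nat.cast_ne_zero.2 (by omega)
  have h : R.exc q m c ≤ (R.exc q m (c - 2)).comap R.N := by
    refine iSup₂_le fun α hα => ?_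
    intro y hy
    have h3 := hα.twist (by omega : q ≠ 0) (-1)
    rw [show (m : ℤ) + c + 2 * (-1) = m + (c - 2) by ring] at h3
    refine Submodule.mem_iSup_of_mem _ (Submodule.mem_iSup_of_mem h3 ?_)
    obtain ⟨h1, h2⟩ := Submodule.mem_inf.1 hy
    refine Submodule.mem_inf.2 ⟨hR.N_gr m y h1, ?_⟩
    have h4 : y ∈ ((q : Ω) ^ (-1 : ℤ) • R.F).maxGenEigenspace ((q : Ω) ^ (-1 : ℤ) * α) := by
      obtain ⟨k, hk⟩ := mem_gen.1 h2
      refine mem_gen.2 ⟨k, ?_⟩
      have e : (q : Ω) ^ (-1 : ℤ) • R.F - algebraMap Ω (Module.End Ω R.V) ((q : Ω) ^ (-1 : ℤ) * α) =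
          (q : Ω) ^ (-1 : ℤ) • (R.F - algebraMap Ω (Module.End Ω R.V) α) := by
        ext z
        simp only [LinearMap.sub_apply, LinearMap.smul_apply, Module.algebraMap_end_apply,
          smul_sub, smul_smul]
      rw [e, smul_pow, LinearMap.smul_apply, hk, smul_zero]
    refine gen_map R.N (fun z => ?_) h4
    rw [LinearMap.smul_apply, map_smul, hR.N_F, smul_smul, zpow_neg_one, inv_mul_cancel₀ hq0,
      one_smul]
  exact h hx

lemma N_tot (hq : 1 < q) (hR : R.IsCoh q) (c : ℤ) :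
    ∀ x ∈ R.tot q c, R.N x ∈ R.tot q (c - 2) := by
  intro x hx
  have h : R.tot q c ≤ (R.tot q (c - 2)).comap R.N := by
    refine iSup_le fun m => ?_
    intro y hy
    exact exc_le_tot m _ (N_exc hq hR m c y hy)
  exact h hx

lemma eigen_exc (hq : 1 < q) (hR : R.IsCoh q) {m : ℕ} {c : ℤ} {α : Ω} {x : R.V}
    (hx : x ∈ R.exc q m c) (h0 : x ≠ 0) (hF : R.F x = α • x) : IsWeilNumber q (m + c) α := by
  have hxm := exc_le m c hx
  obtain ⟨w, hw⟩ := hR.weil m α x hxm h0 hF
  have h1 : x ∈ R.exc q m (w - m) := by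
    refine Submodule.mem_iSup_of_mem α (Submodule.mem_iSup_of_mem ?_ ?_)
    · rwa [show (m : ℤ) + (w - m) = w by ring]
    · refine Submodule.mem_inf.2 ⟨hxm, mem_gen.2 ⟨1, ?_⟩⟩
      rw [pow_one, LinearMap.sub_apply, Module.algebraMap_end_apply, hF, sub_self]
  have h2 : c = w - m := by
    by_contra hne
    have := (indep_exc_deg hq hR m).pairwiseDisjoint hne
    exact h0 (Submodule.disjoint_def.1 this x hx h1)
  rw [h2, show (m : ℤ) + (w - m) = w by ring]
  exact hw

end Coh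

end Pool.Agent.Y163.MW
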