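import Pool.Agent.Y163.MW.Gen
import Pool.Agent.Y163.MW.Wt
import Pool.Agent.Y48.MW.G

/-!
# Purity of `H^m` and the second moment
-/

set_option autoImplicit false

open Module TensorProduct

namespace Pool.Agent.Y163.MW

universe u v w

open Pool.Agent.Y143

section

variable {K : Type u} [Field K] {V : Type v} [AddCommGroup V] [Module K V]

/-- The restriction of a grading and of an operator to a subspace. -/
lemma centred_comap {S : Submodule K V} {W : ℤ → Submodule K V} {N : Module.End K V}
    (hS : ∀ x ∈ S, N x ∈ S) (hW : ∀ c, W c ≤ S) :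
    Centred (fun c => (W c).comap S.subtype) (N.restrict hS) ↔ Centred W N := by
  have hpow : ∀ (k : ℕ) (x : S), (((N.restrict hS) ^ k) x : V) = (N ^ k) x := by
    intro k x
    rw [Module.End.pow_restrict]
    rfl
  constructor
  · intro h a
    refine ⟨fun x hx h0 => ?_, fun y hy => ?_⟩
    · have h1 := (h a).1 ⟨x, hW _ hx⟩ hx (Subtype.ext (by rw [hpow]; exact h0))
      exact congrArg Subtype.val h1
    · obtain ⟨x, hx, hx'⟩ := (h a).2 ⟨y, hW _ hy⟩ hy
      exact ⟨x, hx, by rw [← hpow, hx']⟩
  · intro h a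
    refine ⟨fun x hx h0 => ?_, fun y hy => ?_⟩
    · apply Subtype.ext
      apply (h a).1 x hx
      rw [← hpow, h0]
      rfl
    · obtain ⟨x, hx, hx'⟩ := (h a).2 y hy
      exact ⟨⟨x, hW _ hx⟩, hx, Subtype.ext (by rw [hpow]; exact hx')⟩

lemma internal_comap {S : Submodule K V} {W : ℤ → Submodule K V} (hi : iSupIndep W)
    (hS : ⨆ c, W c = S) : DirectSum.IsInternal (fun c => (W c).comap S.subtype) := by
  have hW : ∀ c, W c ≤ S := fun c => hS ▸ le_iSup W c
  apply DirectSum.isInternal_submodule_of_iSupIndep_of_iSup_eq_top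
  · rw [iSupIndep_iff_finsetSum_eq_zero_imp_eq_zero] at hi ⊢
    intro s v hv hsum i hi'
    apply Subtype.ext
    refine hi s (fun i => (v i : V)) (fun i hi => hv i hi) ?_ i hi'
    rw [← Submodule.coe_sum, hsum]
    rfl
  · apply Submodule.map_injective_of_injective S.injective_subtype
    rw [Submodule.map_iSup, Submodule.map_top, Submodule.range_subtype, ← hS]
    refine iSup_congr fun c => ?_
    rw [hS, Submodule.map_comap_subtype, inf_eq_right.2 (hW c)]

lemma finrank_comap {S W : Submodule K V} (hW : W ≤ S) :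
    finrank K (W.comap S.subtype) = finrank K W :=
  (Submodule.comapSubtypeEquivOfLe hW).finrank_eq

lemma finrank_range_restrict {S : Submodule K V} {N : Module.End K V} (hS : ∀ x ∈ S, N x ∈ S)
    (k : ℕ) : finrank K (LinearMap.range ((N.restrict hS) ^ k)) = finrank K (S.map (N ^ k)) := by
  have h : (LinearMap.range ((N.restrict hS) ^ k)).map S.subtype = S.map (N ^ k) := by
    rw [Module.End.pow_restrict]
    ext x
    simp only [Submodule.mem_map, LinearMap.mem_range]
    constructor
    · rintro ⟨_, ⟨y, rfl⟩, rfl⟩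
      exact ⟨y, y.2, rfl⟩
    · rintro ⟨y, hy, rfl⟩
      exact ⟨_, ⟨⟨y, hy⟩, rfl⟩, rfl⟩
  rw [← h]
  exact (Submodule.finrank_map_subtype_eq S _).symm

end

namespace Coh

variable {Ω : Type w} [Field Ω] [CharZero Ω] [IsAlgClosed Ω] {R : Coh.{v, w} Ω} {q : ℕ}

/-- mw purity means that the weight decomposition is centred. -/
lemma mwPure_iff (hq : 1 < q) (hR : R.IsCoh q) (m : ℕ) :
    R.MWPure q m ↔ Centred (R.exc q m) R.N := by
  have := hR.finite
  exact Pool.Agent.Y48.MW.t_G Ω R.V (R.gr m) (R.exc q m) R.F R.N (q : Ω)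
    (fun c α => IsWeilNumber q (m + c) α) (iSup_exc hR m) (indep_exc_deg hq hR m)
    (F_exc hR m) (N_exc hq hR m) (Nat.cast_ne_zero.2 (by omega)) (fun x _ => hR.N_F x)
    (fun c α x hx h0 hF => eigen_exc hq hR hx h0 hF)
    (fun c c' α h h' => by have := weil_unique hq h h'; omega)

/-- The second moment inequality for `H^m`; equality holds if and only if `H^m` is mw pure. -/
theorem moment_deg (hq : 1 < q) (hR : R.IsCoh q) (m : ℕ) :
    R.rankMoment m ≤ R.weightMoment q m ∧
      (R.rankMoment m = R.weightMoment q m ↔ R.MWPure q m) := by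
  have := hR.finite
  have hi := internal_comap (indep_exc_deg hq hR m) (iSup_exc hR m)
  have h := moment (V := R.gr m) (N := R.N.restrict (hR.N_gr m)) hi
    (fun c x hx => N_exc hq hR m c x hx)
  rw [centred_comap (hR.N_gr m) (exc_le m), ← mwPure_iff hq hR m] at h
  have e1 : R.rankMoment m =
      ∑ᶠ k : ℕ, 2 * (k : ℤ) * finrank Ω (LinearMap.range ((R.N.restrict (hR.N_gr m)) ^ k)) := by
    refine finsum_congr fun k => ?_
    rw [finrank_range_restrict]
  have e2 : R.weightMoment q m =
      ∑ᶠ c : ℤ, c ^ 2 * (finrank Ω ((R.exc q m c).comap (R.gr m).subtype) : ℤ) := by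
    refine finsum_congr fun c => ?_
    rw [finrank_comap (exc_le m c)]
  rw [e1, e2]
  exact h

/-- The total weight decomposition is centred if and only if all `H^m` are mw pure. -/
theorem centred_tot_iff (hq : 1 < q) (hR : R.IsCoh q) :
    Centred (R.tot q) R.N ↔ ∀ m, R.MWPure q m := by
  classical
  have hind := hR.isInternal.submodule_iSupIndep
  rw [iSupIndep_iff_finsetSum_eq_zero_imp_eq_zero] at hind
  have hNk : ∀ (k m : ℕ) (c : ℤ), ∀ x ∈ R.exc q m c, (R.N ^ k) x ∈ R.exc q m (c - 2 * k) := by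
    intro k m
    induction k with
    | zero => intro c x hx; simpa using hx
    | succ k ih =>
      intro c x hx
      rw [pow_succ', Module.End.mul_apply]
      have := N_exc hq hR m _ _ (ih c x hx)
      rwa [show c - 2 * (k : ℤ) - 2 = c - 2 * ((k + 1 : ℕ) : ℤ) by push_cast; ring] at this
  -- decomposition of the elements of `tot`
  have hdec : ∀ (c : ℤ) (x : R.V), x ∈ R.tot q c → ∃ (f : ℕ →₀ R.V),
      (∀ m, f m ∈ R.exc q m c) ∧ ∀ s : Finset ℕ, f.support ⊆ s → ∑ m ∈ s, f m = x := by
    intro c x hx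
    obtain ⟨f, hf, hfx⟩ := (Submodule.mem_iSup_iff_exists_finsupp _ _).1 hx
    refine ⟨f, hf, fun s hs => ?_⟩
    rw [← hfx, Finsupp.sum]
    symm
    refine Finset.sum_subset hs fun i _ hi => ?_
    exact Finsupp.notMem_support_iff.1 hi
  constructor
  · intro h m
    rw [mwPure_iff hq hR]
    intro a
    refine ⟨fun x hx h0 => (h a).1 x (exc_le_tot m _ hx) h0, fun y hy => ?_⟩
    obtain ⟨x, hx, hxy⟩ := (h a).2 y (exc_le_tot m _ hy)
    obtain ⟨f, hf, hfx⟩ := hdec _ x hx
    refine ⟨f m, hf m, ?_⟩
    have h1 : ∑ i ∈ insert m f.support, ((R.N ^ a) (f i) - if i = m then y else 0) = 0 := by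
      rw [Finset.sum_sub_distrib, Finset.sum_ite_eq' (insert m f.support) m (fun _ => y),
        if_pos (Finset.mem_insert_self m _), ← map_sum, hfx _ (Finset.subset_insert _ _), hxy,
        sub_self]
    have h2 := hind (insert m f.support) _ ?_ h1 m (Finset.mem_insert_self m _)
    · rw [if_pos rfl, sub_eq_zero] at h2
      exact h2
    · intro i _
      refine Submodule.sub_mem _ (exc_le i _ (hNk a i _ _ (hf i))) ?_
      split_ifs with hi
      · rw [hi]
        exact exc_le m _ hy
      · exact Submodule.zero_mem _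
  · intro h a
    have h' := fun m => (mwPure_iff hq hR m).1 (h m) a
    refine ⟨fun x hx h0 => ?_, fun y hy => ?_⟩
    · obtain ⟨f, hf, hfx⟩ := hdec _ x hx
      rw [← hfx f.support (Finset.Subset.refl _), map_sum] at h0
      rw [← hfx f.support (Finset.Subset.refl _)]
      refine Finset.sum_eq_zero fun i hi => ?_
      exact (h' i).1 _ (hf i) (hind f.support _ (fun i _ => exc_le i _ (hNk a i _ _ (hf i))) h0 i hi)
    · obtain ⟨f, hf, hfx⟩ := hdec _ y hy
      choose g hg hg' using fun i => (h' i).2 (f i) (hf i)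
      refine ⟨∑ i ∈ f.support, g i, Submodule.sum_mem _ fun i _ => exc_le_tot i _ (hg i), ?_⟩
      rw [map_sum, ← hfx f.support (Finset.Subset.refl _)]
      exact Finset.sum_congr rfl fun i _ => hg' i

end Coh

end Pool.Agent.Y163.MW
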