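import Pool.Agent.Y163.MW.Lin
import Pool.Agent.Y153.MW.A
import Pool.Agent.Y614.MW.F
import Pool.Agent.Y461.MW.H

/-!
# The second moment inequality
-/

set_option autoImplicit false

open Module TensorProduct

namespace Pool.Agent.Y163.MW

universe u v

/-- Sums over the values of a function. -/
lemma finsum_card {G : Type*} [Fintype G] (f : G → ℤ) (φ : ℤ → ℤ) :
    ∑ᶠ c : ℤ, φ c * (Nat.card {g // f g = c} : ℤ) = ∑ g, φ (f g) := by
  classical
  rw [finsum_eq_sum_of_support_subset (s := Finset.univ.image f)]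
  · rw [← Finset.sum_fiberwise_of_maps_to (s := Finset.univ) (t := Finset.univ.image f) (g := f)
      (fun g _ => Finset.mem_image_of_mem _ (Finset.mem_univ _))]
    refine Finset.sum_congr rfl fun c _ => ?_
    rw [Finset.sum_congr rfl (g := fun _ => φ c) (fun g hg => by rw [(Finset.mem_filter.1 hg).2]),
      Finset.sum_const, nsmul_eq_mul, mul_comm]
    congr 1
    rw [Nat.card_eq_fintype_card, Fintype.card_subtype]
  · intro c hc
    rw [Function.mem_support] at hc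
    by_contra hcon
    apply hc
    have : IsEmpty {g // f g = c} := ⟨fun g => hcon (by
      rw [Finset.coe_image]
      exact ⟨g.1, Finset.mem_coe.2 (Finset.mem_univ _), g.2⟩)⟩
    rw [Nat.card_of_isEmpty]
    simp

/-- The sum over a string of the difference of the squares. -/
lemma string_sum (l : ℕ) (t : ℤ) :
    ∑ i : Fin (l + 1), (t - 2 * (i : ℕ)) ^ 2 =
      ∑ i : Fin (l + 1), ((l : ℤ) - 2 * (i : ℕ)) ^ 2 + ((l : ℤ) + 1) * (t - l) ^ 2 := by
  rw [Fin.sum_univ_eq_sum_range (fun i => (t - 2 * (i : ℤ)) ^ 2) (l + 1),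
    Fin.sum_univ_eq_sum_range (fun i => ((l : ℤ) - 2 * (i : ℤ)) ^ 2) (l + 1)]
  have h : ∀ (n : ℕ) (s : ℤ), 3 * ∑ i ∈ Finset.range n, (s - 2 * (i : ℤ)) ^ 2 =
      3 * n * s ^ 2 - 6 * s * n * (n - 1) + 2 * n * (n - 1) * (2 * n - 1) := by
    intro n s
    induction n with
    | zero => simp
    | succ n ih =>
      rw [Finset.sum_range_succ, mul_add, ih]
      push_cast
      ring
  have h1 := h (l + 1) t
  have h2 := h (l + 1) l
  have h3 : 3 * ∑ i ∈ Finset.range (l + 1), (t - 2 * (i : ℤ)) ^ 2 =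
      3 * (∑ i ∈ Finset.range (l + 1), ((l : ℤ) - 2 * (i : ℤ)) ^ 2 +
        ((l : ℤ) + 1) * (t - l) ^ 2) := by
    rw [mul_add, h1, h2]
    push_cast
    ring
  linarith

section

variable {K : Type u} [Field K] {V : Type v} [AddCommGroup V] [Module K V]
  {gr : ℤ → Submodule K V} {N : Module.End K V}

/-- The weights of the basis vectors. -/
def Strings.wt (S : Strings gr N) (p : Σ s : S.ι, Fin (S.len s + 1)) : ℤ :=
  S.top p.1 - 2 * (p.2 : ℕ)

/-- The weights for `sl(2)` of the basis vectors. -/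
def Strings.ct (S : Strings gr N) (p : Σ s : S.ι, Fin (S.len s + 1)) : ℤ :=
  (S.len p.1 : ℤ) - 2 * (p.2 : ℕ)

lemma Strings.mem' (S : Strings gr N) (p : Σ s : S.ι, Fin (S.len s + 1)) :
    S.b p ∈ gr (S.wt p) := S.mem p.1 p.2

lemma Strings.sum_sq (S : Strings gr N) : ∑ p, S.wt p ^ 2 =
    ∑ p, S.ct p ^ 2 + ∑ s, ((S.len s : ℤ) + 1) * (S.top s - S.len s) ^ 2 := by
  rw [Fintype.sum_sigma, Fintype.sum_sigma, ← Finset.sum_add_distrib]
  refine Finset.sum_congr rfl fun s _ => ?_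
  exact string_sum (S.len s) (S.top s)

lemma Strings.sum_ct_le (S : Strings gr N) : ∑ p, S.ct p ^ 2 ≤ ∑ p, S.wt p ^ 2 := by
  rw [S.sum_sq]
  have : 0 ≤ ∑ s, ((S.len s : ℤ) + 1) * (S.top s - S.len s) ^ 2 :=
    Finset.sum_nonneg fun s _ => mul_nonneg (by positivity) (sq_nonneg _)
  linarith

lemma Strings.sum_ct_eq_iff (S : Strings gr N) :
    ∑ p, S.ct p ^ 2 = ∑ p, S.wt p ^ 2 ↔ ∀ s, S.top s = S.len s := by
  rw [S.sum_sq]
  constructor
  · intro h s
    have h1 : ∑ s, ((S.len s : ℤ) + 1) * (S.top s - S.len s) ^ 2 = 0 := by linarith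
    have h2 := (Finset.sum_eq_zero_iff_of_nonneg
      (fun s _ => mul_nonneg (by positivity) (sq_nonneg _))).1 h1 s (Finset.mem_univ _)
    have h3 : (0 : ℤ) < (S.len s : ℤ) + 1 := by positivity
    rcases mul_eq_zero.1 h2 with h4 | h4
    · omega
    · have := pow_eq_zero_iff (two_ne_zero) |>.1 h4
      omega
  · intro h
    have : ∑ s, ((S.len s : ℤ) + 1) * (S.top s - S.len s) ^ 2 = 0 :=
      Finset.sum_eq_zero fun s _ => by rw [h s]; ring
    rw [this, add_zero]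

/-- The weight moment in terms of strings. -/
lemma Strings.weightMoment (S : Strings gr N) (hgr : iSupIndep gr) :
    ∑ᶠ c : ℤ, c ^ 2 * (finrank K (gr c) : ℤ) = ∑ p, S.wt p ^ 2 := by
  rw [← finsum_card S.wt (fun c => c ^ 2)]
  refine finsum_congr fun c => ?_
  rw [finrank_gr hgr S.b S.wt S.mem' c]

/-- The second moment inequality: equality means that the grading is centred. -/
theorem moment [Module.Finite K V] (hgr : DirectSum.IsInternal gr)
    (hN : ∀ r, ∀ x ∈ gr r, N x ∈ gr (r - 2)) :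
    (∑ᶠ k : ℕ, 2 * (k : ℤ) * finrank K (LinearMap.range (N ^ k)) ≤
      ∑ᶠ c : ℤ, c ^ 2 * (finrank K (gr c) : ℤ)) ∧
    (∑ᶠ k : ℕ, 2 * (k : ℤ) * finrank K (LinearMap.range (N ^ k)) =
      ∑ᶠ c : ℤ, c ^ 2 * (finrank K (gr c) : ℤ) ↔ Centred gr N) := by
  obtain ⟨S⟩ := Pool.Agent.Y153.MW.stA K V gr N hgr hN
  rw [Pool.Agent.Y461.MW.h K V gr N S, S.weightMoment hgr.submodule_iSupIndep,
    Pool.Agent.Y614.MW.stF K V gr N hgr S]
  exact ⟨S.sum_ct_le, S.sum_ct_eq_iff⟩

end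

end Pool.Agent.Y163.MW
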