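import Pool.Agent.Y163.MW.Deg
import Pool.Agent.Y664.MW.B2
import Pool.Agent.Y210.MW.B3

/-!
# The powers of a variety: adapted bases
-/

set_option autoImplicit false

open Module TensorProduct

namespace Pool.Agent.Y163.MW

universe u v w

open Pool.Agent.Y143 Pool.Agent.Y136.UB Pool.Agent.H914

namespace Coh

variable {Ω : Type w} [Field Ω] [CharZero Ω] {R R' R'' : Coh.{v, w} Ω} {q : ℕ}

/-- The Künneth isomorphism respects the weights. -/
lemma kunneth_tot (hq : 0 < q) {κ : R.V ⊗[Ω] R'.V ≃ₗ[Ω] R''.V} (hκ : IsKunneth R R' R'' κ)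
    {c c' : ℤ} {x : R.V} {y : R'.V} (hx : x ∈ R.tot q c) (hy : y ∈ R'.tot q c') :
    κ (x ⊗ₜ y) ∈ R''.tot q (c + c') := by
  have h1 : ∀ x ∈ R.tot q c, κ (x ⊗ₜ y) ∈ R''.tot q (c + c') := by
    intro x hx
    have h2 : R.tot q c ≤ (R''.tot q (c + c')).comap
        (κ.toLinearMap ∘ₗ (TensorProduct.mk Ω R.V R'.V).flip y) := by
      refine iSup_le fun m => iSup₂_le fun α hα z hz => ?_
      have h3 : R'.tot q c' ≤ (R''.tot q (c + c')).comap
          (κ.toLinearMap ∘ₗ (TensorProduct.mk Ω R.V R'.V) z) := by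
        refine iSup_le fun n => iSup₂_le fun β hβ t ht => ?_
        obtain ⟨hz1, hz2⟩ := Submodule.mem_inf.1 hz
        obtain ⟨ht1, ht2⟩ := Submodule.mem_inf.1 ht
        refine exc_le_tot (m + n) _ ?_
        have h4 := weil_mul hq hα hβ
        rw [show (m : ℤ) + c + (n + c') = ((m + n : ℕ) : ℤ) + (c + c') by push_cast; ring] at h4
        refine Submodule.mem_iSup_of_mem _ (Submodule.mem_iSup_of_mem h4 ?_)
        refine Submodule.mem_inf.2 ⟨hκ.degree m n z t hz1 ht1, ?_⟩
        have h5 := gen_tmul hz2 ht2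
        refine gen_map κ.toLinearMap (fun v => ?_) h5
        induction v using TensorProduct.induction_on with
        | zero => simp
        | tmul a b => exact hκ.frob a b
        | add a b ha hb => rw [map_add, map_add, map_add, map_add, ha, hb]
      exact h3 hy
    exact h2 hx
  exact h1 x hx

/-- There is a basis of the cohomology which consists of weight vectors of weights `a i` for a
representation of `sl(2)` with lowering operator `N` and of excesses `c i`. -/
def Adp (R : Coh.{v, w} Ω) (q : ℕ) {I : Type} (a c : I → ℤ) : Prop :=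
  ∃ (b : Basis I Ω R.V) (e h : Module.End Ω R.V), IsSl2 R.N b a e h ∧ ∀ i, b i ∈ R.tot q (c i)

lemma Adp.reindex {I J : Type} {a c : I → ℤ} (H : R.Adp q a c) (E : I ≃ J) (a' c' : J → ℤ)
    (ha : ∀ j, a' j = a (E.symm j)) (hc : ∀ j, c' j = c (E.symm j)) : R.Adp q a' c' := by
  obtain ⟨b, e, h, hs, hb⟩ := H
  refine ⟨b.reindex E, e, h, ⟨fun j => ?_, hs.eN, hs.hN, hs.he⟩, fun j => ?_⟩
  · rw [Basis.reindex_apply, ha]
    exact hs.wt _
  · rw [Basis.reindex_apply, hc]
    exact hb _

lemma Adp.prod {I J : Type} {a c : I → ℤ} {a' c' : J → ℤ} (H : R.Adp q a c) (H' : R'.Adp q a' c')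
    (hq : 0 < q) {κ : R.V ⊗[Ω] R'.V ≃ₗ[Ω] R''.V} (hκ : IsKunneth R R' R'' κ) :
    R''.Adp q (fun p : I × J => a p.1 + a' p.2) (fun p : I × J => c p.1 + c' p.2) := by
  obtain ⟨b, e, h, hs, hb⟩ := H
  obtain ⟨b', e', h', hs', hb'⟩ := H'
  have h1 := Pool.Agent.Y210.MW.t_B3 Ω R.V R'.V R.N I b a e h R'.N J b' a' e' h' hs hs'
  have h2 := h1.map κ (N' := R''.N) (fun x => by
    induction x using TensorProduct.induction_on with
    | zero => simp
    | tmul x y =>
      refine (hκ.monodromy x y).trans ?_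
      exact (map_add κ _ _).symm
    | add x y hx hy => rw [map_add, map_add, map_add, map_add, hx, hy])
  refine ⟨_, _, _, h2, fun p => ?_⟩
  rw [Basis.map_apply, Basis.tensorProduct_apply]
  exact kunneth_tot hq hκ (hb p.1) (hb' p.2)

end Coh

section

variable {K : Type u} [Field K] {Ω : Type w} [Field Ω] [CharZero Ω]
  {T : Theory.{u, v, w} K Ω} {q : ℕ}

/-- Adapted bases for all the powers. -/
theorem adp_pow (hT : T.IsLocal q) (hq : 1 < q) (X : SmVar.{u} K) {I : Type} {a c : I → ℤ}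
    (H : (T.H X).Adp q a c) (n : ℕ) :
    (T.H (pow X n)).Adp q (fun g : Fin (n + 1) → I => ∑ k, a (g k))
      (fun g : Fin (n + 1) → I => ∑ k, c (g k)) := by
  induction n with
  | zero =>
    have H' : (T.H (pow X 0)).Adp q a c := H
    refine H'.reindex (Equiv.funUnique (Fin 1) I).symm _ _ (fun g => ?_) (fun g => ?_)
    · simp
    · simp
  | succ n ih =>
    obtain ⟨κ, hκ⟩ := hT.kunneth X (pow X n)
    have H' : (T.H (pow X (n + 1))).Adp q
        (fun p : I × (Fin (n + 1) → I) => a p.1 + ∑ k, a (p.2 k))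
        (fun p : I × (Fin (n + 1) → I) => c p.1 + ∑ k, c (p.2 k)) := H.prod ih (by omega) hκ
    refine H'.reindex (Fin.consEquiv (fun _ => I)) _ _ (fun g => ?_) (fun g => ?_)
    · rw [Fin.sum_univ_succ]
      rfl
    · rw [Fin.sum_univ_succ]
      rfl

end

end Pool.Agent.Y163.MW
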